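import Pool.Agent.R899.IG.Main

/-!
# Isomorphism game algebras need not embed into C*-algebras of solution groups

The full group C*-algebra of a group has the trivial character, a character of the isomorphism game
algebra of two graphs is an isomorphism of the graphs, and the two graphs of the magic square are
not isomorphic although their isomorphism game algebra is not zero.
-/

set_option autoImplicit false

namespace Pool.Agent.Results.MP_3b70de_al.NoEmbedding

open Pool.Agent.R899.IG

/-- **Negative answer.**
(1) There are finite graphs `G`, `H` whose isomorphism game algebra exists, is not zero, and has no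
embedding (unital injective star homomorphism) into the full group C*-algebra of the solution group
of any binary linear system.
(2) For all finite graphs `G`, `H` and all groups `Γ` there is a unital star homomorphism from the
isomorphism game algebra to the full group C*-algebra of `Γ` if and only if `G` and `H` are
isomorphic.
(3) The isomorphism game algebra of `G` and `H` exists whenever the relations of the game are
satisfied in some nonzero unital C*-algebra, and is then not zero; full group C*-algebras exist. -/
theorem result :
    (∃ (V W : Type) (_ : Fintype V) (_ : Fintype W) (G : SimpleGraph V) (H : SimpleGraph W),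
      (∃ (A : Type) (_ : CStarAlgebra A) (p : V → W → A), IsIsoGameAlgebra G H A p) ∧
      ∀ (A : Type) [CStarAlgebra A] (p : V → W → A), IsIsoGameAlgebra G H A p →
        Nontrivial A ∧
        ∀ (m n : ℕ) (M : Matrix (Fin m) (Fin n) (ZMod 2)) (b : Fin m → ZMod 2)
          (C : Type) [CStarAlgebra C] (u : SolutionGroup M b →* unitary C),
          IsFullGroupCStar (SolutionGroup M b) C u →
            ¬ ∃ φ : A →⋆ₐ[ℂ] C, Function.Injective φ) ∧
    (∀ (V W : Type) [Fintype V] [Fintype W] (G : SimpleGraph V) (H : SimpleGraph W)
      (A : Type) [CStarAlgebra A] (p : V → W → A), IsIsoGameAlgebra G H A p →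
      ∀ (Γ : Type) [Group Γ] (C : Type) [CStarAlgebra C] (u : Γ →* unitary C),
        IsFullGroupCStar Γ C u → (Nonempty (A →⋆ₐ[ℂ] C) ↔ Nonempty (G ≃g H))) ∧
    (∀ (V W : Type) [Fintype V] [Fintype W] (G : SimpleGraph V) (H : SimpleGraph W)
      (B : Type) [CStarAlgebra B] [Nontrivial B] (q : V → W → B), IsGameFamily G H B q →
      ∃ (A : Type) (_ : CStarAlgebra A) (p : V → W → A), IsIsoGameAlgebra G H A p ∧
        Nontrivial A) ∧
    ∀ (Γ : Type) [Group Γ], ∃ (C : Type) (_ : CStarAlgebra C) (u : Γ →* unitary C),
      IsFullGroupCStar Γ C u := by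
  refine ⟨⟨Loc oddLast, Loc 0, inferInstance, inferInstance, sysGraph oddLast, sysGraph 0, ?_, ?_⟩,
    ?_, ?_, fun Γ _ => exists_groupCStar Γ⟩
  · exact exists_gameAlgebra _ _ ⟨B4, inferInstance, fam, inferInstance, fam_family⟩
  · intro A _ p hA
    refine ⟨nonzero hA, ?_⟩
    rintro m n M b C _ u hC ⟨φ, _⟩
    exact not_iso.false ((hom_iff_iso hA hC).1 ⟨φ⟩).some
  · intro V W _ _ G H A _ p hA Γ _ C _ u hC
    exact hom_iff_iso hA hC
  · intro V W _ _ G H B _ hB q hq
    obtain ⟨A, instA, p, hA⟩ := exists_gameAlgebra G H ⟨B, inferInstance, q, hB, hq⟩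
    refine ⟨A, instA, p, hA, ?_⟩
    obtain ⟨φ, _⟩ := hA.univ B q hq
    exact φ.toRingHom.domain_nontrivial

end Pool.Agent.Results.MP_3b70de_al.NoEmbedding
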